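import Pool.Agent.H49.RD.Defs

/-!
MP_ba3460_lc, linear exponent (/team-store/H11_RL.md), sections 4 and 5: peeling and the tower of the
sets `R ^ γ`.
-/

set_option autoImplicit false
set_option linter.unusedSectionVars false

open Finset

namespace Pool.Agent.H80.RD

open Pool.Agent.H49.RG (Cl Ad Eqn nbr cell pts mem_cell mem_nbr mem_pts cell_sub cell_mono
  cell_anti cell_cell cell_eq)
open Pool.Agent.H49.RD

variable {ν ω : Type} [Fintype ν] [DecidableEq ν] [DecidableEq ω] {L : ℕ}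

/-- Remove the heavy cells: what remains is regular, and every removed point lies in a heavy set that
is regular above its cell. -/
lemma peel (P : Pl ν L) (c : H49.RD.Num) (hp : 0 < c.p) (hn : 0 < c.n) (U : Finset (Fin L)) (Φ : Finset ν)
    (τ : ℕ → ℝ) (hτ : ∀ m, 0 ≤ τ m) (B : Finset (Fin L → ν)) :
    ∃ B' ⊆ B, (∀ (U' : Finset (Fin L)) (α' : Fin L → ν), U ⊆ U' → U ≠ U' →
        P.den c B' U' α' Φ ≤ τ U'.card) ∧
      ∀ x ∈ B, x ∉ B' → ∃ U' : Finset (Fin L), U ⊆ U' ∧ U ≠ U' ∧ ∃ X, x ∈ X ∧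
        X ⊆ cell P.G B U' x Φ ∧ τ U'.card < P.den c X U' x Φ ∧
        ∀ (U'' : Finset (Fin L)) (β' : Fin L → ν), U' ⊆ U'' → U' ≠ U'' →
          P.den c X U'' β' Φ ≤ τ U''.card := by
  classical
  induction B using Finset.strongInduction with
  | H B ih =>
    by_cases hall : ∀ (U' : Finset (Fin L)) (α' : Fin L → ν), U ⊆ U' → U ≠ U' →
        P.den c B U' α' Φ ≤ τ U'.card
    · exact ⟨B, Finset.Subset.refl _, hall, fun x h1 h2 => absurd h1 h2⟩
    push Not at hall
    -- a heavy cell with the largest set of rows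
    let S : Finset (Finset (Fin L)) := univ.filter fun U' => U ⊆ U' ∧ U ≠ U' ∧
      ∃ α' : Fin L → ν, τ U'.card < P.den c B U' α' Φ
    have hS : S.Nonempty := by
      obtain ⟨U', α', h1, h2, h3⟩ := hall
      exact ⟨U', by simp only [S, mem_filter, mem_univ, true_and]; exact ⟨h1, h2, α', h3⟩⟩
    obtain ⟨U', hU', hmax⟩ := S.exists_max_image (fun V => V.card) hS
    simp only [S, mem_filter, mem_univ, true_and] at hU' hmax
    obtain ⟨hUU, hne, α', hden⟩ := hU'
    let X := cell P.G B U' α' Φ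
    have hXB : X ⊆ B := cell_sub _ _ _ _ _
    have hXne : X.Nonempty := by
      by_contra hX
      rw [not_nonempty_iff_eq_empty] at hX
      have : P.den c B U' α' Φ = 0 := by
        unfold Pl.den
        have : cell P.G B U' α' Φ = ∅ := hX
        rw [this]; simp
      linarith [hτ U'.card]
    have hXden : P.den c X U' α' Φ = P.den c B U' α' Φ := by
      unfold Pl.den
      congr 2
      exact congrArg card (cell_eq (Finset.Subset.refl _))
    obtain ⟨B', hB', h1, h2⟩ := ih (B \ X) (by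
      refine ⟨sdiff_subset, fun h => ?_⟩
      obtain ⟨x, hx⟩ := hXne
      exact (mem_sdiff.1 (h (hXB hx))).2 hx)
    refine ⟨B', hB'.trans sdiff_subset, h1, fun x hxB hxB' => ?_⟩
    by_cases hxX : x ∈ X
    · have hcell : ∀ Y : Finset (Fin L → ν), cell P.G Y U' x Φ = cell P.G Y U' α' Φ := by
        intro Y
        have hx := (mem_cell.1 hxX).2.1
        ext z
        rw [mem_cell, mem_cell]
        constructor
        · rintro ⟨z1, z2, z3⟩
          exact ⟨z1, fun j hj => (z2 j hj).trans (hx j hj), z3⟩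
        · rintro ⟨z1, z2, z3⟩
          exact ⟨z1, fun j hj => (z2 j hj).trans (hx j hj).symm, z3⟩
      refine ⟨U', hUU, hne, X, hxX, ?_, ?_, ?_⟩
      · rw [hcell]
      · have : P.den c X U' x Φ = P.den c X U' α' Φ := by
          unfold Pl.den; rw [hcell]
        rw [this, hXden]; exact hden
      · intro U'' β' hs hs'
        refine (P.den_mono hp hn hXB U'' β' Φ).trans ?_
        by_contra hcon
        push Not at hcon
        have hne'' : U ≠ U'' := by
          rintro rfl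
          exact hs' (Finset.Subset.antisymm hs hUU)
        have := hmax U'' ⟨hUU.trans hs, hne'', β', hcon⟩
        exact hs' (Finset.eq_of_subset_of_card_le hs this)
    · obtain ⟨U1, a1, a2, X1, a3, a4, a5, a6⟩ := h2 x (mem_sdiff.2 ⟨hxB, hxX⟩) hxB'
      exact ⟨U1, a1, a2, X1, a3, a4.trans (cell_mono sdiff_subset _ _ _), a5, a6⟩

/-- The tower exists: `R` in the cell of `U`, `α`, `Φ` must be regular. -/
theorem tow_exists (P : Pl ν L) (c : H49.RD.Num) (hp : 0 < c.p) (hn : 0 < c.n) (hh : 0 ≤ c.h)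
    {G0 : ℝ} (hG0 : 0 ≤ G0) {R : Finset (Fin L → ν)} {U : Finset (Fin L)}
    {α : Fin L → ν} {Φ : Finset ν} (hR : R ⊆ cell P.G (pts P.G P.V) U α Φ)
    (hreg : ∀ (U' : Finset (Fin L)) (α' : Fin L → ν), U ⊆ U' → U ≠ U' → Eqn U α' α →
      P.den c R U' α' Φ ≤ c.thr G0 (P.den c R U α Φ) U.card 0 U'.card) :
    ∃ T : Finset ν → Finset (Fin L → ν), P.Tow c G0 R U α Φ T := by
  classical
  let d := P.den c R U α Φ
  have hd : 0 ≤ d := P.den_nonneg hp hn _ _ _ _
  have hthr : ∀ g m, 0 ≤ c.thr G0 d U.card g m := by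
    intro g m
    unfold Num.thr
    positivity
  -- one step: the set `T γ` from the sets of the proper subsets of `γ`
  choose pl hpl1 hpl2 hpl3 using fun (γ : Finset ν) =>
    peel P c hp hn U (Φ ∪ γ) (fun m => c.thr G0 d U.card γ.card m) (fun m => hthr γ.card m)
  let Bs : (γ : Finset ν) → ((Q : Finset ν) → Q ⊂ γ → Finset (Fin L → ν)) → Finset (Fin L → ν) :=
    fun γ F => (cell P.G R U α (Φ ∪ γ)).filter fun x => ∀ (Q : Finset ν) (h : Q ⊂ γ), x ∈ F Q h
  let step : (γ : Finset ν) → ((Q : Finset ν) → Q ⊂ γ → Finset (Fin L → ν)) →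
      Finset (Fin L → ν) := fun γ F => if γ = ∅ then R else pl γ (Bs γ F)
  let T : Finset ν → Finset (Fin L → ν) := fun γ => Finset.strongInduction step γ
  have hT : ∀ γ, T γ = step γ (fun Q _ => T Q) := by
    intro γ
    simp only [T]
    rw [Finset.strongInduction_eq]
  have hT0 : T ∅ = R := by
    rw [hT]; simp [step]
  have hT1 : ∀ γ, γ ≠ ∅ → T γ = pl γ (Bs γ fun Q _ => T Q) := by
    intro γ h
    rw [hT]; simp [step, h]
  have hB1 : ∀ γ, γ ≠ ∅ → T γ ⊆ Bs γ fun Q _ => T Q := fun γ h => by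
    rw [hT1 γ h]; exact hpl1 _ _
  have hRcell : cell P.G R U α Φ = R := cell_eq hR
  refine ⟨T, hT0, ?_, ?_, ?_, ?_⟩
  · -- sub
    intro γ
    by_cases h : γ = ∅
    · subst h
      rw [hT0, union_empty, hRcell]
    · exact (hB1 γ h).trans (filter_subset _ _)
  · -- anti
    intro γ Q hQ
    by_cases h : Q = γ
    · rw [h]
    have hγ : γ ≠ ∅ := by
      rintro rfl
      exact h (subset_empty.1 hQ)
    intro x hx
    have := (mem_filter.1 (hB1 γ hγ hx)).2 Q ⟨hQ, fun h' => h (Finset.Subset.antisymm hQ h')⟩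
    exact this
  · -- upper
    intro γ _ _ U' α' hU hne hα
    by_cases h : γ = ∅
    · subst h
      rw [hT0, union_empty, card_empty]
      exact hreg U' α' hU hne hα
    · rw [hT1 γ h]
      exact hpl2 γ _ U' α' hU hne
  · -- heavy
    intro γ x _ _ hxR hxγ hxT
    -- a minimal `γ'`
    let S : Finset (Finset ν) := γ.powerset.filter fun Q => x ∉ T Q
    have hS : S.Nonempty := ⟨γ, by simp [S, hxT]⟩
    obtain ⟨γ', hγ', hmin⟩ := S.exists_min_image (fun V => V.card) hS
    simp only [S, mem_filter, mem_powerset] at hγ' hmin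
    have hprop : ∀ Q, Q ⊂ γ' → x ∈ T Q := by
      intro Q hQ
      by_contra hx
      have := hmin Q ⟨hQ.1.trans hγ'.1, hx⟩
      exact absurd (card_lt_card hQ) (not_lt.2 this)
    have hne : γ' ≠ ∅ := by
      rintro rfl
      exact hγ'.2 (by rw [hT0]; exact hxR)
    have hxB : x ∈ Bs γ' fun Q _ => T Q := by
      refine mem_filter.2 ⟨mem_cell.2 ⟨hxR, ?_, ?_⟩, fun Q hQ => hprop Q hQ⟩
      · exact (mem_cell.1 (hR hxR)).2.1
      · intro j hj v hv
        rcases mem_union.1 hv with hv | hv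
        · exact (mem_cell.1 (hR hxR)).2.2 j hj v hv
        · exact hxγ j hj v (hγ'.1 hv)
    have hxT' := hγ'.2
    rw [hT1 γ' hne] at hxT'
    obtain ⟨U', a1, a2, X, a3, a4, a5, a6⟩ := hpl3 γ' _ x hxB hxT'
    refine ⟨γ', hγ'.1, hγ'.2, U', a1, a2, X, a3, ?_, ?_, a5, a6⟩
    · refine a4.trans ?_
      rw [hT0]
      intro z hz
      obtain ⟨z1, z2, z3⟩ := mem_cell.1 hz
      exact mem_cell.2 ⟨(mem_cell.1 (mem_filter.1 z1).1).1, z2, z3⟩
    · intro Q hQ hQne z hz
      have z1 := (mem_cell.1 (a4 hz)).1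
      exact (mem_filter.1 z1).2 Q ⟨hQ, fun h' => hQne (Finset.Subset.antisymm hQ h')⟩

/-- The tower of a regular set. -/
theorem tow_of_Sp (P : Pl ν L) (c : H49.RD.Num) (hp : 0 < c.p) (hn : 0 < c.n) (hh : 0 ≤ c.h)
    {R : Finset (Fin L → ν)} {U : Finset (Fin L)} {α : Fin L → ν} {Φ : Finset ν} {Z G : ℝ}
    (hG : 0 ≤ G) (hR : P.Sp c R U α Φ Z G) :
    ∃ T : Finset ν → Finset (Fin L → ν), P.Tow c G R U α Φ T := by
  refine tow_exists P c hp hn hh hG hR.sub fun U' α' h1 _ h3 => ?_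
  unfold Num.thr
  rw [pow_zero, mul_one]
  exact hR.upper U' α' h1 h3

end Pool.Agent.H80.RD
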